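import Pool.Agent.H38.CUBE.JJStmts2

/-!
# MP_47888e_al, block CONT/JJ, part 2 (Frobenius): module MPA

The Mellin transform of an integral polynomial.
-/

set_option autoImplicit false

open Polynomial

namespace Pool.CUBE.F_MPA

open Pool.CM Pool.H93.Cube Pool.CUBE

theorem Bx_pos {n : ℕ} (γ : Fin n →₀ ℕ) (i : Fin n) : 1 ≤ Bx γ i := by
  unfold Bx
  refine le_trans ?_ (Finset.single_le_sum (f := fun i' => γ i' + 1)
    (fun _ _ => Nat.zero_le _) (Finset.mem_filter.2 ⟨Finset.mem_univ i, le_rfl⟩))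
  exact Nat.le_add_left _ _

theorem Bx_le {n : ℕ} (γ : Fin n →₀ ℕ) (i : Fin n) : Bx γ i ≤ γ.degree + n := by
  unfold Bx
  have h1 : ∑ i' ∈ Finset.univ.filter (fun i' => i ≤ i'), (γ i' + 1) ≤ ∑ i', (γ i' + 1) :=
    Finset.sum_le_sum_of_subset (Finset.filter_subset _ _)
  refine h1.trans (le_of_eq ?_)
  rw [Finset.sum_add_distrib, Finsupp.degree_eq_sum]
  simp

theorem Mx_le {n : ℕ} (μ : Fin n →₀ ℕ) (i : Fin n) : Mx μ i ≤ μ.degree := by
  unfold Mx
  rw [Finsupp.degree_eq_sum]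
  exact Finset.sum_le_sum_of_subset (Finset.filter_subset _ _)

theorem prod_rule {R : Type} [CommRing R] (n : ℕ) (Q p : R) (f : Fin n → R) :
    Q ^ n * (p ^ n * ∏ i, f i) = ∏ i, Q * (p * f i) := by
  rw [Finset.prod_mul_distrib, Finset.prod_mul_distrib, Finset.prod_const, Finset.prod_const,
    Finset.card_univ, Fintype.card_fin]

theorem affR_C {E : Type} [Field E] (u v : E) (hu : u ≠ 0) (x : E) :
    affR u v hu (RatFunc.C x) = RatFunc.C x := by
  unfold affR
  rw [← RatFunc.algebraMap_C, RatFunc.coe_mapRingHom_eq_coe_map]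
  have := RatFunc.map_apply_div (affP u v) (affP_le u v hu) (Polynomial.C x) 1
  have h2 : affP u v (Polynomial.C x) = Polynomial.C x := by
    unfold affP; simp
  rw [h2] at this
  simpa using this

end Pool.CUBE.F_MPA

namespace Pool.CUBE

open Pool.CM Pool.H93.Cube Pool.CUBE.F_MPA

theorem mpa_thm (h1 : MLFStmt) (h2 : PACStmt) (_ : RSCStmt) : MPAStmt := by
  intro X E _ _ A hA i n C D M c hC hc μ hμ f h hf g hg hd
  obtain ⟨-, hmul, -, -, hcst, -, hsum, hprod, -, -⟩ := h2 X E A hA i M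
  have h3 : g = ∑ γ ∈ g.support, MvPolynomial.monomial γ (g.coeff γ) := g.as_sum
  have h4 : algebraMap E[X] (RatFunc E) (qq E c D) ^ n *
      ((X.p i : RatFunc E) ^ n * affR (X.p i : E) (f : E) h (Mell μ g)) =
      ∑ γ ∈ g.support, RatFunc.C (g.coeff γ) * ∏ j, (algebraMap E[X] (RatFunc E) (qq E c D) *
        ((X.p i : RatFunc E) * affR (X.p i : E) (f : E) h
          (((Bx γ j : ℕ) : RatFunc E) + ((Mx μ j : ℕ) : RatFunc E) * RatFunc.X)⁻¹)) := by
    conv_lhs => rw [h3]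
    rw [map_sum, map_sum, Finset.mul_sum, Finset.mul_sum]
    refine Finset.sum_congr rfl fun γ _ => ?_
    rw [← prod_rule]
    unfold Mell
    rw [Pool.CUBE.linMon_monomial, RatFunc.smul_eq_C_mul, map_mul, affR_C, map_prod]
    ring
  rw [h4]
  refine hsum _ _ _ _ fun γ hγ => ?_
  have h5 : MvPolynomial.coeff γ g ≠ 0 := MvPolynomial.mem_support_iff.1 hγ
  have h6 := hmul 0 (n * ((2 * c + 1) * D + M)) (RatFunc.C (g.coeff γ))
    (∏ j, (algebraMap E[X] (RatFunc E) (qq E c D) *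
        ((X.p i : RatFunc E) * affR (X.p i : E) (f : E) h
          (((Bx γ j : ℕ) : RatFunc E) + ((Mx μ j : ℕ) : RatFunc E) * RatFunc.X)⁻¹)))
    (hcst _ (hg γ)) (hprod _ _ _ fun j => h1 X E A hA i C D M c hC hc (Bx γ j) (Mx μ j) f h
      (Bx_pos γ j) ((Bx_le γ j).trans (hd γ h5)) hf ((Mx_le μ j).trans hμ))
  rwa [zero_add] at h6

end Pool.CUBE
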