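import Pool.Agent.H84.CUBE.J_FACE

/-!
# MP_47888e_al, block CONT/JJ: module FACEP

`P` of the face.
-/

set_option autoImplicit false

open Polynomial

namespace Pool.CUBE.J_FACEP

open Pool.CM Pool.H93.Cube Pool.CUBE Pool.CUBE.Corner Pool.CUBE.J_FACE

/-- the face `z_0 = 0` as an algebra homomorphism -/
noncomputable def fc (n : ℕ) (A : Type) [CommRing A] :
    MvPolynomial (Fin (n + 2)) A →ₐ[A] MvPolynomial (Fin (n + 1)) A :=
  MvPolynomial.aeval (Fin.cases 0 MvPolynomial.X)

theorem faceP_eq {n : ℕ} {A : Type} [CommRing A] (P : MvPolynomial (Fin (n + 2)) A) :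
    faceP P = fc n A P := rfl

section
variable {n : ℕ} {A : Type} [CommRing A]

theorem fc_X_zero : fc n A (MvPolynomial.X 0) = 0 := by
  unfold fc; rw [MvPolynomial.aeval_X]; rfl

theorem fc_X_succ (i : Fin (n + 1)) : fc n A (MvPolynomial.X i.succ) = MvPolynomial.X i := by
  unfold fc; rw [MvPolynomial.aeval_X]; rfl

theorem fc_C (x : A) : fc n A (MvPolynomial.C x) = MvPolynomial.C x := by
  unfold fc; rw [MvPolynomial.aeval_C]; rfl

theorem fc_SigP : fc n A (SigP (n + 1) A) = SigP n A := by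
  unfold SigP
  rw [map_sum, Fin.sum_univ_succ, fc_X_zero, zero_add]
  exact Finset.sum_congr rfl fun i _ => fc_X_succ i

theorem fc_clP_zero : fc n A (clP (n + 1) A 0) = SigP n A := by
  unfold SigP clP
  rw [map_sum, Finset.sum_filter, Fin.sum_univ_succ]
  simp [fc_X_succ]

theorem fc_clP_succ (l : Fin n) : fc n A (clP (n + 1) A l.succ) = clP n A l := by
  unfold clP
  rw [map_sum, Finset.sum_filter, Finset.sum_filter, Fin.sum_univ_succ]
  simp [fc_X_succ]

theorem fc_fer (D : ℕ) (hD : 0 < D) :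
    fc n A (∑ i, MvPolynomial.X i ^ D) = ∑ i, MvPolynomial.X i ^ D := by
  rw [map_sum, Fin.sum_univ_succ, map_pow, fc_X_zero, zero_pow hD.ne', zero_add]
  exact Finset.sum_congr rfl fun i _ => by rw [map_pow, fc_X_succ]

theorem fc_map {B : Type} [CommRing B] (φ : A →+* B) (g : MvPolynomial (Fin (n + 2)) A) :
    fc n B (MvPolynomial.map φ g) = MvPolynomial.map φ (fc n A g) := by
  induction g using MvPolynomial.induction_on with
  | C a => rw [MvPolynomial.map_C, fc_C, fc_C, MvPolynomial.map_C]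
  | add p q hp hq => rw [map_add, map_add, hp, hq, map_add, map_add]
  | mul_X p i hp =>
    rw [map_mul, map_mul, hp, map_mul, map_mul, MvPolynomial.map_X]
    congr 1
    refine Fin.cases ?_ (fun i => ?_) i
    · rw [fc_X_zero, fc_X_zero, map_zero]
    · rw [fc_X_succ, fc_X_succ, MvPolynomial.map_X]

end

/-- homogenisation and the face -/
theorem fc_homD_monomial {n : ℕ} {E : Type} [Field E] (D : ℕ) (γ : Fin (n + 1) →₀ ℕ)
    (hγ : γ.degree ≤ D) (x : E) :
    fc n E (homD D (MvPolynomial.monomial γ x)) =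
      homD D (MvPolynomial.monomial γ.tail x) := by
  have h1 := degree_tail_le γ
  unfold homD
  rw [linMon_monomial, linMon_monomial, map_smul, map_mul, map_pow, fc_SigP, map_prod,
    Fin.prod_univ_succ, map_pow, fc_clP_zero]
  have h2 : ∀ i : Fin n, fc n E (clP (n + 1) E i.succ ^ γ i.succ) = clP n E i ^ γ.tail i := by
    intro i
    rw [map_pow, fc_clP_succ, Finsupp.tail_apply]
  rw [Finset.prod_congr rfl fun i _ => h2 i]
  have h3 : D - γ.tail.degree = (D - γ.degree) + γ 0 := by omega
  rw [h3, pow_add, mul_assoc]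

theorem fc_homD {n : ℕ} {E : Type} [Field E] (D : ℕ) (h : MvPolynomial (Fin (n + 1)) E)
    (hh : h.totalDegree ≤ D) : fc n E (homD D h) = homD D (rc n E h) := by
  conv_lhs => rw [h.as_sum]
  conv_rhs => rw [h.as_sum]
  rw [map_sum, map_sum, map_sum, map_sum]
  refine Finset.sum_congr rfl fun γ hγ => ?_
  rw [rc_monomial, fc_homD_monomial]
  exact (MvPolynomial.le_totalDegree hγ).trans hh

end Pool.CUBE.J_FACEP

namespace Pool.CUBE

open Pool.CM Pool.H93.Cube Pool.CUBE.Corner Pool.CUBE.J_FACE Pool.CUBE.J_FACEP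

namespace J_FACEP

variable {n : ℕ} {E : Type} [Field E] {K : Corner (n + 1) E} {K0 : Corner n E}

theorem mu_eq (h : IsFace K K0) : K0.μ = K.μ.tail := by
  ext i
  rw [h.2.1 i, Finsupp.tail_apply]

theorem W_eq (h : IsFace K K0) (k : ℕ) : K0.W k = rc n E (K.W k) := by
  unfold Corner.W
  have h1 : (1 + K0.w) = (1 + K.w).map (rc n E).toRingHom := by
    rw [h.2.2, Polynomial.map_add, Polynomial.map_one]
  rw [h1, Polynomial.coeff_map]
  rfl

theorem totalDegree_W (K : Corner n E) (k : ℕ) :
    (MvPolynomial.monomial K.μ 1 * K.W k).totalDegree ≤ K.D := by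
  have h1 : (K.W k).totalDegree ≤ (K.w.coeff k).totalDegree := by
    unfold Corner.W
    rw [Polynomial.coeff_add, Polynomial.coeff_one]
    refine (MvPolynomial.totalDegree_add _ _).trans (max_le ?_ le_rfl)
    split_ifs
    · rw [MvPolynomial.totalDegree_one]; exact Nat.zero_le _
    · rw [MvPolynomial.totalDegree_zero]; exact Nat.zero_le _
  have h2 : (MvPolynomial.monomial K.μ (1 : E)).totalDegree ≤ K.μ.degree :=
    MvPolynomial.totalDegree_monomial_le _ _
  have h3 := MvPolynomial.totalDegree_mul (MvPolynomial.monomial K.μ (1 : E)) (K.W k)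
  have h4 := K.hdeg k
  omega

theorem G_eq (h : IsFace K K0) (k : ℕ) : K0.G k = fc n E (K.G k) := by
  unfold Corner.G
  rw [fc_homD _ _ (totalDegree_W K k), map_mul (rc n E), rc_monomial, h.1, mu_eq h, W_eq h]

theorem G_zero (K : Corner n E) (k : ℕ) (hk : (1 + K.w).natDegree < k) : K.G k = 0 := by
  unfold Corner.G Corner.W
  rw [Polynomial.coeff_eq_zero_of_natDegree_lt hk, mul_zero, map_zero]

theorem natDegree_le (h : IsFace K K0) : (1 + K0.w).natDegree ≤ (1 + K.w).natDegree := by
  have h1 : (1 + K0.w) = (1 + K.w).map (rc n E).toRingHom := by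
    rw [h.2.2, Polynomial.map_add, Polynomial.map_one]
  rw [h1]
  exact Polynomial.natDegree_map_le

theorem P0_eq (h : IsFace K K0) : K0.P0 = fc n _ K.P0 := by
  unfold Corner.P0
  rw [map_sub, map_mul, fc_C, map_pow, fc_SigP, map_sum, h.1]
  congr 1
  refine (Finset.sum_subset (Finset.range_subset_range.2
    (Nat.succ_le_succ (natDegree_le h))) ?_).trans (Finset.sum_congr rfl fun k _ => ?_)
  · intro k _ hk
    rw [G_zero K0 k (by rw [Finset.mem_range] at hk; omega), map_zero, mul_zero]
  · rw [map_mul, fc_C, fc_map, G_eq h]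

end J_FACEP

theorem facep_thm : FACEPStmt := by
  intro n E _ _ K K0 h
  rw [faceP_eq]
  unfold Corner.P ferm
  rw [map_add, map_mul, fc_C, fc_fer _ K.hD, fc_map, P0_eq h, h.1]

end Pool.CUBE
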