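import Pool.Agent.H38.CUBE.JJStmts

/-!
# MP_47888e_al, block CONT/JJ: module FACE

The corner data of a face exist.
-/

set_option autoImplicit false

open Polynomial

namespace Pool.CUBE.J_FACE

open Pool.CM Pool.H93.Cube Pool.CUBE Pool.CUBE.Corner

theorem degree_tail_le {n : ℕ} (γ : Fin (n + 1) →₀ ℕ) :
    γ.degree = γ 0 + γ.tail.degree := by
  rw [Finsupp.degree_eq_sum, Finsupp.degree_eq_sum, Fin.sum_univ_succ]
  simp [Finsupp.tail_apply]

/-- `rc` on monomials -/
theorem rc_monomial {n : ℕ} {E : Type} [Field E] (γ : Fin (n + 1) →₀ ℕ) (x : E) :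
    rc n E (MvPolynomial.monomial γ x) = MvPolynomial.monomial γ.tail x := by
  unfold rc
  rw [MvPolynomial.aeval_monomial, MvPolynomial.monomial_eq, Finsupp.prod_fintype _ _ (by simp),
    Finsupp.prod_fintype _ _ (by simp), Fin.prod_univ_succ]
  simp [Finsupp.tail_apply, MvPolynomial.algebraMap_eq]

theorem totalDegree_rc_le {n : ℕ} {E : Type} [Field E] (h : MvPolynomial (Fin (n + 1)) E) :
    (rc n E h).totalDegree ≤ h.totalDegree := by
  conv_lhs => rw [h.as_sum, map_sum]
  refine (MvPolynomial.totalDegree_finsetSum _ _).trans (Finset.sup_le fun γ hγ => ?_)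
  rw [rc_monomial]
  refine (MvPolynomial.totalDegree_monomial_le _ _).trans ?_
  have h1 := MvPolynomial.le_totalDegree hγ
  have h2 : (γ.tail.sum fun _ => id) = γ.tail.degree := rfl
  have h3 : (γ.sum fun _ e => e) = γ.degree := rfl
  rw [h3, degree_tail_le] at h1
  rw [h2]
  omega

end Pool.CUBE.J_FACE

namespace Pool.CUBE

open Pool.CM Pool.H93.Cube Pool.CUBE.Corner Pool.CUBE.J_FACE

theorem face_thm : FACEStmt := by
  intro n E _ K
  have hd := degree_tail_le K.μ
  refine ⟨Corner.mk K.D K.μ.tail (K.w.map (rc n E).toRingHom) K.hD ?_ ?_ ?_, rfl,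
    fun i => Finsupp.tail_apply _ _, rfl⟩
  · rw [Polynomial.coeff_map, K.hw, map_zero]
  · have := K.hμ
    omega
  · intro k
    have h1 := K.hdeg k
    have h2 := totalDegree_rc_le (K.w.coeff k)
    rw [Polynomial.coeff_map]
    have h3 : (rc n E).toRingHom (K.w.coeff k) = rc n E (K.w.coeff k) := rfl
    rw [h3]
    omega

end Pool.CUBE
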