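import Pool.Agent.H38.CUBE.JJStmts

/-!
# MP_47888e_al, block CONT/JJ: module JJTOP

At most `n` logarithms.
-/

set_option autoImplicit false

open Polynomial

namespace Pool.CUBE.J_JJTOP

open Pool.CM Pool.H93.Cube Pool.CUBE Pool.CUBE.Corner

section
variable {E : Type} [Field E]

/-- pole order at most `k` -/
def Pl (k : ℕ) (f : LaurentSeries E) : Prop :=
  ∃ g : PowerSeries E, HahnSeries.single (k : ℤ) (1 : E) * f = HahnSeries.ofPowerSeries ℤ E g

theorem Pl.coeff {k : ℕ} {f : LaurentSeries E} (h : Pl k f) (j : ℕ) (hj : k < j) :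
    f.coeff (-(j : ℤ)) = 0 := by
  obtain ⟨g, hg⟩ := h
  have h1 := congrArg (fun x : LaurentSeries E => x.coeff (-(j : ℤ) + k)) hg
  simp only [HahnSeries.coeff_single_mul_add, one_mul] at h1
  rw [h1, HahnSeries.ofPowerSeries_apply]
  refine HahnSeries.embDomain_of_notMem_range ?_
  rintro ⟨m, hm⟩
  have : (m : ℤ) = -(j : ℤ) + k := hm
  omega

theorem Pl.zero (k : ℕ) : Pl k (0 : LaurentSeries E) := ⟨0, by rw [mul_zero, map_zero]⟩

theorem Pl.add {k : ℕ} {f g : LaurentSeries E} (hf : Pl k f) (hg : Pl k g) : Pl k (f + g) := by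
  obtain ⟨a, ha⟩ := hf
  obtain ⟨b, hb⟩ := hg
  exact ⟨a + b, by rw [mul_add, ha, hb, map_add]⟩

theorem Pl.mul {k l : ℕ} {f g : LaurentSeries E} (hf : Pl k f) (hg : Pl l g) :
    Pl (k + l) (f * g) := by
  obtain ⟨a, ha⟩ := hf
  obtain ⟨b, hb⟩ := hg
  refine ⟨a * b, ?_⟩
  have h1 : (HahnSeries.single ((k + l : ℕ) : ℤ) (1 : E)) =
      HahnSeries.single (k : ℤ) (1 : E) * HahnSeries.single (l : ℤ) (1 : E) := by
    rw [HahnSeries.single_mul_single, Nat.cast_add, mul_one]
  rw [h1, map_mul, ← ha, ← hb]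
  ring

theorem Pl.mul0 {k : ℕ} {f g : LaurentSeries E} (hf : Pl 0 f) (hg : Pl k g) : Pl k (f * g) := by
  have h := hf.mul hg
  rwa [zero_add] at h

theorem Pl.sum {ι : Type} (s : Finset ι) {k : ℕ} (f : ι → LaurentSeries E)
    (h : ∀ i ∈ s, Pl k (f i)) : Pl k (∑ i ∈ s, f i) := by
  classical
  induction s using Finset.induction_on with
  | empty => rw [Finset.sum_empty]; exact Pl.zero k
  | insert a s ha ih =>
    rw [Finset.sum_insert ha]
    exact (h a (Finset.mem_insert_self _ _)).add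
      (ih fun i hi => h i (Finset.mem_insert_of_mem hi))

theorem Pl.exP (g : E[X]) : Pl 0 (exP E g) := by
  refine ⟨(g : PowerSeries E), ?_⟩
  have : (HahnSeries.single ((0 : ℕ) : ℤ) (1 : E)) = (1 : LaurentSeries E) := by
    rw [Nat.cast_zero]; rfl
  rw [this, one_mul]
  rfl

theorem Pl.prod : ∀ (n : ℕ) (f : Fin n → LaurentSeries E), (∀ i, Pl 1 (f i)) → Pl n (∏ i, f i)
  | 0, f, _ => by
    rw [Fin.prod_univ_zero]
    have := Pl.exP (1 : E[X])
    rwa [map_one] at this
  | n + 1, f, h => by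
    rw [Fin.prod_univ_succ]
    have h1 := (h 0).mul (Pl.prod n _ fun i => h i.succ)
    rwa [add_comm 1 n] at h1

theorem Pl.inv (b m : E) (h : b ≠ 0 ∨ m ≠ 0) :
    Pl 1 (Pool.CM.exP E (Polynomial.C b + Polynomial.C m * Polynomial.X))⁻¹ := by
  by_cases hb : b = 0
  · subst hb
    have hm : m ≠ 0 := by simpa using h
    refine ⟨PowerSeries.C m⁻¹, ?_⟩
    have h1 : Pool.CM.exP E (Polynomial.C 0 + Polynomial.C m * Polynomial.X) =
        HahnSeries.single ((1 : ℕ) : ℤ) m := by
      unfold Pool.CM.exP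
      simp [HahnSeries.ofPowerSeries_C, HahnSeries.ofPowerSeries_X]
    have h2 : (HahnSeries.single ((1 : ℕ) : ℤ) m : LaurentSeries E) ≠ 0 :=
      HahnSeries.single_ne_zero hm
    rw [h1, mul_inv_eq_iff_eq_mul₀ h2, HahnSeries.ofPowerSeries_C]
    change _ = HahnSeries.single 0 _ * _
    rw [HahnSeries.single_mul_single, zero_add, inv_mul_cancel₀ hm]
  · set q : PowerSeries E := ((Polynomial.C b + Polynomial.C m * Polynomial.X : E[X]) :
      PowerSeries E) with hq
    have h0 : PowerSeries.constantCoeff q ≠ 0 := by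
      rw [hq]; simp [hb]
    have h1 : Pool.CM.exP E (Polynomial.C b + Polynomial.C m * Polynomial.X) =
        HahnSeries.ofPowerSeries ℤ E q := rfl
    have h2 : HahnSeries.ofPowerSeries ℤ E q ≠ 0 := by
      intro h
      have h3 := HahnSeries.ofPowerSeries_injective (Γ := ℤ) (R := E)
        (h.trans (map_zero _).symm)
      rw [h3, map_zero] at h0
      exact h0 rfl
    refine ⟨PowerSeries.X * q⁻¹, ?_⟩
    rw [h1, mul_inv_eq_iff_eq_mul₀ h2, ← map_mul, mul_assoc, PowerSeries.inv_mul_cancel _ h0,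
      mul_one, HahnSeries.ofPowerSeries_X]
    rfl

theorem affR_algebraMap (v : E) (g : E[X]) :
    affR 1 v one_ne_zero (algebraMap E[X] (RatFunc E) g) =
      algebraMap E[X] (RatFunc E) (affP 1 v g) := by
  unfold affR
  rw [RatFunc.coe_mapRingHom_eq_coe_map]
  have := RatFunc.map_apply_div (affP 1 v) (affP_le 1 v one_ne_zero) g 1
  simpa using this

/-- `r ↦ r (N + v + ε)` -/
theorem lexp_affR_algebraMap (N : ℤ) (v : E) (g : E[X]) :
    lexp N (affR 1 v one_ne_zero (algebraMap E[X] (RatFunc E) g)) =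
      Pool.CM.exP E (affP 1 (N : E) (affP 1 v g)) := by
  unfold lexp
  rw [RingHom.comp_apply, affR_algebraMap, affR_algebraMap, ex_algebraMap]

theorem lexp_algebraMap (N : ℤ) (g : E[X]) :
    lexp N (algebraMap E[X] (RatFunc E) g) = Pool.CM.exP E (affP 1 (N : E) g) := by
  unfold lexp
  rw [RingHom.comp_apply, affR_algebraMap, ex_algebraMap]

theorem affP_lin (v b m : E) :
    affP 1 v (Polynomial.C b + Polynomial.C m * Polynomial.X) =
      Polynomial.C (b + m * v) + Polynomial.C m * Polynomial.X := by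
  unfold affP
  rw [Polynomial.coe_eval₂RingHom]
  simp only [Polynomial.eval₂_add, Polynomial.eval₂_C, Polynomial.eval₂_mul, Polynomial.eval₂_X,
    map_one, one_mul, map_add, map_mul]
  ring

/-- the Mellin transform has at most `n` poles at every point -/
theorem Pl_Mell [CharZero E] {n : ℕ} (μ : Fin n →₀ ℕ) (N : ℤ) (v : E)
    (h : MvPolynomial (Fin n) E) :
    Pl n (lexp N (affR 1 v one_ne_zero (Mell μ h))) := by
  induction h using MvPolynomial.induction_on' with
  | add p q hp hq => rw [map_add, map_add, map_add]; exact hp.add hq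
  | monomial γ x =>
    unfold Mell
    rw [Pool.CUBE.linMon_monomial, RatFunc.smul_eq_C_mul, map_mul, map_mul, map_prod, map_prod]
    refine Pl.mul0 ?_ (Pl.prod _ _ fun i => ?_)
    · rw [← RatFunc.algebraMap_C, lexp_affR_algebraMap]
      exact Pl.exP _
    · rw [map_inv₀, map_inv₀]
      have h1 : ((Bx γ i : ℕ) : RatFunc E) + ((Mx μ i : ℕ) : RatFunc E) * RatFunc.X =
          algebraMap E[X] (RatFunc E) (Polynomial.C ((Bx γ i : ℕ) : E) +
            Polynomial.C ((Mx μ i : ℕ) : E) * Polynomial.X) := by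
        simp
      rw [h1, lexp_affR_algebraMap, affP_lin, affP_lin]
      refine Pl.inv _ _ ?_
      by_cases hm : ((Mx μ i : ℕ) : E) = 0
      · left
        rw [hm, zero_mul, zero_mul, add_zero, add_zero]
        have h2 : 1 ≤ Bx γ i := by
          unfold Bx
          refine le_trans ?_ (Finset.single_le_sum (f := fun i' => γ i' + 1)
            (fun _ _ => Nat.zero_le _) (Finset.mem_filter.2 ⟨Finset.mem_univ i, le_rfl⟩))
          exact Nat.le_add_left _ _
        exact_mod_cast (Nat.pos_iff_ne_zero.1 h2)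
      · exact Or.inr hm

theorem Pl_rr [CharZero E] {n : ℕ} (K : Corner n E) (L : ℕ) (g : MvPolynomial (Fin (n + 1)) E)
    (l t : ℕ) (N : ℤ) : Pl n (lexp N (K.rr L g l t)) := by
  unfold Corner.rr
  rw [map_mul, map_mul]
  refine Pl.mul0 (Pl.mul0 ?_ ?_) ?_
  · have h1 : ((-1) ^ l * (((L + l - 1).factorial : RatFunc E) / (l.factorial : RatFunc E))) =
        algebraMap E[X] (RatFunc E) (Polynomial.C ((-1) ^ l *
          (((L + l - 1).factorial : E) / (l.factorial : E)))) := by
      rw [RatFunc.algebraMap_C]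
      simp
    rw [h1, lexp_algebraMap]
    exact Pl.exP _
  · unfold binR
    rw [lexp_algebraMap]
    exact Pl.exP _
  · rw [map_sum, map_sum]
    refine Pl.sum _ _ fun j _ => ?_
    rw [map_mul, map_mul]
    refine Pl.mul0 ?_ ?_
    · unfold binR
      rw [lexp_affR_algebraMap]
      exact Pl.exP _
    · exact Pl_Mell K.μ N (1 - (L : E) - (l : E)) (zc (g * fer n K.D E ^ l) * (K.w ^ j).coeff t)

end

end Pool.CUBE.J_JJTOP

namespace Pool.CUBE

open Pool.CM Pool.H93.Cube Pool.CUBE.Corner Pool.CUBE.J_JJTOP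

theorem jjtop_thm : JJTOPStmt := by
  intro n E _ _ K j g hj
  have h1 : ∀ (N : ℤ) (L : ℕ) (h : MvPolynomial (Fin (n + 1)) E) (l t : ℕ),
      Rc j N (K.rr L h l t) = 0 := by
    intro N L h l t
    unfold Rc
    rw [(Pl_rr K L h l t N).coeff j hj, mul_zero]
  have h2 : ∀ a, K.del j a = 0 := by
    intro a
    unfold Corner.del
    split_ifs with h
    · have h3 : (PowerSeries.mk fun l =>
          HahnSeries.single (1 - ((K.lv a + l : ℕ) : ℤ)) (1 : LaurentSeries E) *
            HahnSeries.ofPowerSeries ℤ _ (PowerSeries.mk fun s =>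
              HahnSeries.ofPowerSeries ℤ _ (PowerSeries.mk fun t =>
                -Rc j (((K.lv a + l : ℕ) : ℤ) - 2 - s)
                  (K.rr (K.lv a) (MvPolynomial.monomial a 1) l t)))) = 0 := by
        ext1 l
        rw [PowerSeries.coeff_mk, map_zero]
        have h4 : (PowerSeries.mk fun s =>
              HahnSeries.ofPowerSeries ℤ E (PowerSeries.mk fun t =>
                -Rc j (((K.lv a + l : ℕ) : ℤ) - 2 - (s : ℕ))
                  (K.rr (K.lv a) (MvPolynomial.monomial a 1) l t))) = 0 := by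
          ext1 s
          rw [PowerSeries.coeff_mk, map_zero]
          have h5 : (PowerSeries.mk fun t =>
                -Rc j (((K.lv a + l : ℕ) : ℤ) - 2 - (s : ℕ))
                  (K.rr (K.lv a) (MvPolynomial.monomial a 1) l t)) = 0 := by
            ext1 t
            rw [PowerSeries.coeff_mk, map_zero, h1, neg_zero]
          rw [h5, map_zero]
        rw [h4, map_zero, mul_zero]
      rw [h3, map_zero]
    · rfl
  change ∑ a ∈ g.support, ex3 E (g.coeff a) * K.del j a = 0
  exact Finset.sum_eq_zero fun a _ => by rw [h2, mul_zero]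

end Pool.CUBE
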