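import Pool.Agent.H38.CUBE.JJStmts

/-!
# MP_47888e_al, block CONT/JJ: module LAM

The connection in the direction `λ` on `Ainf` and `rr`.
-/

set_option autoImplicit false

open Polynomial

namespace Pool.CUBE.J_LAM

open Pool.CM Pool.H93.Cube Pool.CUBE Pool.CUBE.Corner

private theorem affR_congr {E : Type} [Field E] (v v' : E) (r r' : RatFunc E) (h : v = v')
    (hr : r = r') : affR 1 v one_ne_zero r = affR 1 v' one_ne_zero r' := by
  subst h hr; rfl

end Pool.CUBE.J_LAM

namespace Pool.CUBE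

open Pool.CM Pool.H93.Cube Pool.CUBE.Corner Pool.CUBE.J_LAM

theorem lam_thm : LAMStmt := by
  intro n E _ _ K L l t g N hL
  constructor
  · unfold Corner.Ainf
    by_cases h : (L : ℤ) + (l + 1 : ℕ) ≤ N + 1
    · have h' : ((L + 1 : ℕ) : ℤ) + l ≤ N + 1 := by push_cast at h ⊢; omega
      rw [if_pos h, if_pos h']
      have e1 : N + 1 - ((L + 1 : ℕ) : ℤ) - (l : ℤ) = N + 1 - (L : ℤ) - ((l + 1 : ℕ) : ℤ) := by
        push_cast; ring
      rw [e1]
      have e2 : fer n K.D E * g * fer n K.D E ^ l = g * fer n K.D E ^ (l + 1) := by ring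
      rw [e2]
      have h1 : ((l + 1 : ℕ) : E) ≠ 0 := by exact_mod_cast Nat.succ_ne_zero l
      have h2 : (l.factorial : E) ≠ 0 := by exact_mod_cast Nat.factorial_ne_zero l
      have h3 : (((N + 1 - (L : ℤ) - ((l + 1 : ℕ) : ℤ)).toNat.factorial : ℕ) : E) ≠ 0 := by
        exact_mod_cast Nat.factorial_ne_zero _
      rw [Nat.factorial_succ]
      generalize (N + 1 - (L : ℤ) - ((l + 1 : ℕ) : ℤ)).toNat = m at *
      rw [pow_succ (-1 : E) l]
      rw [Nat.cast_mul]
      field_simp
    · have h' : ¬ ((L + 1 : ℕ) : ℤ) + l ≤ N + 1 := by push_cast at h ⊢; omega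
      rw [if_neg h, if_neg h']; simp
  · unfold Corner.rr
    have e0 : L + 1 + l - 1 = L + l := by omega
    have e0' : L + (l + 1) - 1 = L + l := by omega
    rw [e0, e0']
    have e2 : fer n K.D E * g * fer n K.D E ^ l = g * fer n K.D E ^ (l + 1) := by ring
    rw [e2]
    rw [affR_congr (1 - ((L + 1 : ℕ) : E) - (l : E)) (1 - (L : E) - ((l + 1 : ℕ) : E)) _ _
      (by push_cast; ring) rfl]
    have : CharZero (RatFunc E) := charZero_of_injective_algebraMap (R := E) (RatFunc.C_injective)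
    have h1 : ((l + 1 : ℕ) : RatFunc E) ≠ 0 := by exact_mod_cast Nat.succ_ne_zero l
    have h2 : (l.factorial : RatFunc E) ≠ 0 := by exact_mod_cast Nat.factorial_ne_zero l
    rw [Nat.factorial_succ l, pow_succ (-1 : RatFunc E) l, Nat.cast_mul]
    field_simp

end Pool.CUBE
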